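import Mathlib

set_option autoImplicit false

namespace Pool.Agent.Results.MP_4db40a_lc.Sep

open List

/-- `w` is a word over the alphabet `U`. -/
def Over (U : Finset ℕ) (w : List ℕ) : Prop := ∀ a ∈ w, a ∈ U

/-- Ordered languages over `U`. -/
def Ord (U : Finset ℕ) (L : Set (List ℕ)) : Prop :=
  ∃ (Z : Type) (_ : Fintype Z) (_ : LinearOrder Z) (δ : Z → U → Z) (z : Z) (F : Set Z),
    (∀ a, Monotone (δ · a)) ∧ L = {w | ∃ x : List U, x.map (↑) = w ∧ x.foldl δ z ∈ F}

/-- Strictly locally `k`-testable languages over `U`. -/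
def SLT (k : ℕ) (U : Finset ℕ) (L : Set (List ℕ)) : Prop :=
  (∀ w ∈ L, Over U w) ∧ ∃ B I E : Set (List ℕ), ∀ w, Over U w → k ≤ w.length →
    (w ∈ L ↔ w.take k ∈ B ∧ w.drop (w.length - k) ∈ E ∧
      ∀ j, 1 ≤ j → j + k + 1 ≤ w.length → (w.drop j).take k ∈ I)

structure Gram where
  V : Finset ℕ
  P : List (Set (List ℕ) × Finset (List ℕ × List ℕ))
  A : Finset (List ℕ)
  hA : ∀ w ∈ A, Over V w
  hC : ∀ p ∈ P, ∀ c ∈ p.2, Over V c.1 ∧ Over V c.2

inductive Gram.Gen (G : Gram) : List ℕ → Prop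
  | ax {w} : w ∈ G.A → G.Gen w
  | step {x u v p} : G.Gen x → p ∈ G.P → x ∈ p.1 → (u, v) ∈ p.2 → G.Gen (u ++ x ++ v)

def EC (F : Finset ℕ → Set (List ℕ) → Prop) : Set (Set (List ℕ)) :=
  {L | ∃ G : Gram, (∀ p ∈ G.P, ∃ U ⊆ G.V, F U p.1) ∧ L = {w | G.Gen w}}

def U3 : Finset ℕ := {0, 1, 2}

def good : Set (List ℕ) := {w | Over U3 w ∧ w.IsChain (· ≠ ·)}

def gr : Gram where
  V := {0, 1, 2, 3}
  P := [({w | Over U3 w}, {([0], []), ([1], []), ([2], [])}), (good, {([3], [3])})]
  A := {[]}
  hA := by simp [Over]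
  hC := by simp +contextual [Over, or_imp]

theorem slt : SLT 2 U3 good := by
  refine ⟨fun _ h => h.1, {w | w.IsChain (· ≠ ·)}, {w | w.IsChain (· ≠ ·)},
    {w | w.IsChain (· ≠ ·)}, fun w h l => ⟨fun g => ⟨g.2.take _, g.2.drop _, fun j _ _ =>
      (g.2.drop _).take _⟩, fun ⟨h1, h2, h3⟩ => ⟨h, isChain_iff_getElem.2 fun i hi => ?_⟩⟩⟩
  have : ((w.drop i).take 2).IsChain (· ≠ ·) := by
    rcases Nat.eq_zero_or_pos i with rfl | p
    · exact h1
    by_cases e : i + 2 = w.length
    · exact (show (w.drop i).IsChain _ by rwa [show i = w.length - 2 by omega]).take _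
    · exact h3 i p (by omega)
  simpa using isChain_iff_getElem.1 this 0 (by simp; omega)

theorem gen (w : List ℕ) : gr.Gen w ↔ Over U3 w ∨ ∃ x ∈ good, w = 3 :: x ++ [3] := by
  refine ⟨fun h => ?_, ?_⟩
  · induction h with
    | ax h => exact .inl (by simp_all [gr, Over])
    | step _ h1 h2 h3 =>
      simp only [gr, mem_cons, not_mem_nil, or_false] at h1
      rcases h1 with rfl | rfl
      · refine .inl fun a ha => ?_
        have := h2 a
        simp only [Finset.mem_insert, Finset.mem_singleton, Prod.mk.injEq] at h3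
        rcases h3 with h | h | h <;> simp_all [U3] <;> tauto
      · simp only [Finset.mem_singleton, Prod.mk.injEq] at h3
        exact .inr ⟨_, h2, by simp [h3]⟩
  have h (w : List ℕ) (h : Over U3 w) : gr.Gen w := by
    induction w with
    | nil => exact .ax (by simp [gr])
    | cons a w ih =>
      have h1 : Over U3 w := fun b hb => h b (by simp [hb])
      simpa using Gram.Gen.step (u := [a]) (v := []) (ih h1) (mem_cons_self ..) h1
        (by simpa [U3] using h a (by simp))
  rintro (l | ⟨x, hx, rfl⟩)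
  exacts [h _ l, .step (u := [3]) (p := (good, {([3], [3])})) (h _ hx.1) (by simp [gr]) hx (by simp)]

/-- Good loops from `0` to `1`. -/
def T (w : List ℕ) : Prop := w ∈ good ∧ w.head? = some 0 ∧ w.getLast? = some 1

theorem T.app {x y : List ℕ} (h : T x) (g : T y) : T (x ++ y) :=
  ⟨⟨fun a ha => (mem_append.1 ha).elim (h.1.1 a) (g.1.1 a),
    isChain_append.2 ⟨h.1.2, g.1.2, by simp [h.2.2, g.2.1]⟩⟩, by simp [h.2.1], by simp [g.2.2]⟩

section
variable {Z : Type} (δ : Z → ℕ → Z)

def Min (e : List ℕ) : Prop := ∀ x, T x → ∀ z, (e ++ x ++ e).foldl δ z = e.foldl δ z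

theorem mono [LinearOrder Z] (hδ : ∀ a, Monotone (δ · a)) (w : List ℕ) :
    Monotone fun z => w.foldl δ z := by
  induction w with
  | nil => exact monotone_id
  | cons a w ih => exact ih.comp (hδ a)

theorem exMin [Fintype Z] [LinearOrder Z] (hδ : ∀ a, Monotone (δ · a)) : ∃ e, T e ∧ Min δ e := by
  obtain ⟨e, he, hm⟩ := (measure fun w : List ℕ =>
    (Set.range fun z => w.foldl δ z).ncard).wf.has_min {w | T w} ⟨[0, 1], by simp [T, good, Over, U3]⟩
  refine ⟨e, he, fun x hx z => ?_⟩
  let R := Set.range fun z => e.foldl δ z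
  let f (r : R) : R := ⟨(x ++ e).foldl δ r, _, (foldl_append ..).symm⟩
  have h1 : Set.range (fun z => (e ++ x ++ e).foldl δ z) = R :=
    Set.eq_of_subset_of_ncard_le (by rintro _ ⟨z, rfl⟩; exact ⟨_, (foldl_append ..).symm⟩)
      (not_lt.1 (hm _ ((he.app hx).app he)))
  have h2 : f.Surjective := by
    rintro ⟨r, hr⟩
    obtain ⟨z, rfl⟩ := h1.ge hr
    exact ⟨⟨_, z, rfl⟩, by simp [f]⟩
  have h3 : StrictMono f := Monotone.strictMono_of_injective (fun a b h => mono δ hδ _ h)
    (Finite.injective_iff_surjective.2 h2)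
  simpa [f] using congrArg Subtype.val (h3.apply_eq (x := ⟨_, z, rfl⟩))

theorem Min.ext {e u v : List ℕ} (h : Min δ e) (hu : T u) (hv : T v) : Min δ (u ++ e ++ v) :=
  fun x hx z => by
    have := h _ ((hv.app hx).app hu) (u.foldl δ z)
    simp only [foldl_append] at this ⊢
    rw [this]

def y3 (i : ℕ) : List ℕ := if i = 1 then [0, 2, 1] else [0, 1, i]

def v3 (i : ℕ) : List ℕ := if i = 0 then [0, 2, 1] else [i, 0, 1]

theorem bad [LinearOrder Z] (hδ : ∀ a, Monotone (δ · a)) {e : List ℕ} (h : Min δ e) (z : Z) :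
    ∃ i < 3, (e ++ (y3 i ++ v3 i) ++ e).foldl δ z = e.foldl δ z := by
  have h1 (i j : ℕ) (hi : i < 3) (hj : j < 3) (n : i ≠ j) := h (y3 i ++ v3 j) (by
    interval_cases i <;> interval_cases j <;> simp_all [T, good, Over, U3, y3, v3]) z
  let p i := (e ++ y3 i).foldl δ z
  have h2 (i j k : ℕ) (hi : i < 3) (hj : j < 3) (hk : k < 3) (n1 : j ≠ i) (n2 : k ≠ i)
      (l1 : p j ≤ p i) (l2 : p i ≤ p k) : ∃ i < 3,
      (e ++ (y3 i ++ v3 i) ++ e).foldl δ z = e.foldl δ z := by
    have h3 := mono δ hδ (v3 i ++ e) l1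
    have h4 := mono δ hδ (v3 i ++ e) l2
    have h5 := h1 j i hj hi n1
    have h6 := h1 k i hk hi n2
    simp only [foldl_append, p] at h3 h4 h5 h6 ⊢
    exact ⟨i, hi, le_antisymm (h4.trans_eq h6) (h5.ge.trans h3)⟩
  rcases le_total (p 0) (p 1) with a | a <;> rcases le_total (p 1) (p 2) with b | b <;>
    rcases le_total (p 0) (p 2) with c | c
  all_goals first
    | exact h2 1 0 2 (by simp) (by simp) (by simp) (by simp) (by simp) a b
    | exact h2 1 2 0 (by simp) (by simp) (by simp) (by simp) (by simp) b a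
    | exact h2 0 1 2 (by simp) (by simp) (by simp) (by simp) (by simp) a c
    | exact h2 0 2 1 (by simp) (by simp) (by simp) (by simp) (by simp) c a
    | exact h2 2 0 1 (by simp) (by simp) (by simp) (by simp) (by simp) c b
    | exact h2 2 1 0 (by simp) (by simp) (by simp) (by simp) (by simp) b c

end

/-- Membership of `s e t` forces membership of a word with a square of a letter. -/
def Q (L : Set (List ℕ)) (e : List ℕ) : Prop :=
  ∀ s t, s ++ e ++ t ∈ L → ∃ i < 3, s ++ (e ++ (y3 i ++ v3 i) ++ e) ++ t ∈ L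

theorem ordQ {U : Finset ℕ} {L : Set (List ℕ)} (h : Ord U L) :
    ∃ e, T e ∧ ∀ u v, T u → T v → Q L (u ++ e ++ v) := by
  obtain ⟨Z, _, _, δ, z, F, hδ, rfl⟩ := h
  let γ (q : Z) (a : ℕ) : Z := if h : a ∈ U then δ q ⟨a, h⟩ else q
  have h1 (a : ℕ) : Monotone (γ · a) := by
    by_cases h : a ∈ U
    · simpa [γ, h] using hδ ⟨a, h⟩
    · simp only [γ, h, dite_false]; exact monotone_id
  have h2 (w : List ℕ) : (∃ x : List U, x.map (↑) = w ∧ x.foldl δ z ∈ F) ↔
      Over U w ∧ w.foldl γ z ∈ F := by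
    have (x : List U) : (x.map (↑)).foldl γ z = x.foldl δ z := by rw [foldl_map]; simp [γ]
    refine ⟨?_, fun ⟨h, g⟩ => ⟨w.pmap Subtype.mk h, by simp [map_pmap], by
      rwa [← this, map_pmap, pmap_eq_map, map_id']⟩⟩
    rintro ⟨x, rfl, h⟩
    exact ⟨by simp +contextual [Over], this x ▸ h⟩
  obtain ⟨e, he, hm⟩ := exMin γ h1
  refine ⟨[0, 2, 1] ++ e ++ [0, 1], ((show T _ by simp [T, good, Over, U3]).app he).app
    (by simp [T, good, Over, U3]), fun u v hu hv s t h => ?_⟩
  simp only [Set.mem_setOf_eq, h2] at h ⊢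
  obtain ⟨i, hi, h3⟩ := bad γ h1 ((hm.ext γ (u := [0, 2, 1]) (v := [0, 1])
    (by simp [T, good, Over, U3]) (by simp [T, good, Over, U3])).ext γ hu hv) (s.foldl γ z)
  refine ⟨i, hi, fun a ha => h.1 a ?_, by rw [foldl_append, foldl_append, h3]; simpa using h.2⟩
  interval_cases i <;> simp [y3, v3] at ha ⊢ <;> tauto

theorem allQ (l : List (Set (List ℕ))) (h : ∀ L ∈ l, ∃ U, Ord U L) :
    ∃ e, T e ∧ ∀ u v, T u → T v → ∀ L ∈ l, Q L (u ++ e ++ v) := by
  induction l with
  | nil => exact ⟨[0, 1], by simp [T, good, Over, U3], by simp⟩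
  | cons L l ih =>
    obtain ⟨e, he, h1⟩ := ih fun M hM => h M (by simp [hM])
    obtain ⟨U, hU⟩ := h L (by simp)
    obtain ⟨f, hf, h2⟩ := ordQ hU
    refine ⟨e ++ f, he.app hf, fun u v hu hv M hM => ?_⟩
    rcases mem_cons.1 hM with rfl | hM
    · simpa using h2 _ v (hu.app he) hv
    · simpa using h1 u _ hu (hf.app hv) M hM

theorem long (n : ℕ) : ∃ u, T u ∧ n ≤ u.length := by
  induction n with
  | zero => exact ⟨[0, 1], by simp [T, good, Over, U3], by simp⟩
  | succ n ih =>
    obtain ⟨u, h, l⟩ := ih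
    exact ⟨u ++ [0, 1], h.app (by simp [T, good, Over, U3]), by simp; omega⟩

theorem result : (EC (SLT 2) \ EC Ord).Nonempty := by
  refine ⟨_, ⟨gr, ?_, rfl⟩, ?_⟩
  · simp only [gr, mem_cons, not_mem_nil, or_false, forall_eq_or_imp, forall_eq]
    exact ⟨⟨U3, by decide, fun _ h => h, .univ, .univ, .univ, by simp +contextual⟩,
      U3, by decide, slt⟩
  rintro ⟨G, hG, e⟩
  replace e : ∀ w, G.Gen w ↔ _ := fun w => (Set.ext_iff.1 e w).symm.trans (gen w)
  obtain ⟨m, hm, hQ⟩ := allQ (G.P.map (·.1)) (by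
    simp only [mem_map]
    rintro _ ⟨p, hp, rfl⟩
    exact (hG p hp).imp fun _ h => h.2)
  obtain ⟨s, hs, ls⟩ := long (G.A.sup length +
    (G.P.map fun p => p.2.sup fun c => c.1.length + c.2.length).sum)
  have hw := ((hs.app ((hs.app hm).app hs)).app hs).1
  have key : ∀ w, G.Gen w → w ≠ 3 :: (s ++ (s ++ m ++ s) ++ s) ++ [3] := by
    intro w h
    induction h with
    | ax h =>
      rintro rfl
      have := Finset.le_sup (f := length) h
      simp [-Finset.le_sup_iff, -Finset.lt_sup_iff] at this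
      omega
    | @step x u v p h h1 h2 h3 ih =>
      intro e1
      have l1 : u.length + v.length ≤ s.length := by
        have := Finset.le_sup (f := fun c : List ℕ × List ℕ => c.1.length + c.2.length) h3
        have := single_le_sum (l := G.P.map fun p => p.2.sup fun c => c.1.length + c.2.length)
          (by simp) _ (mem_map_of_mem h1)
        dsimp only at *
        omega
      have hm' := (hs.app hm).app hs
      have hQ' := hQ s s hs hs _ (mem_map_of_mem h1)
      generalize s ++ m ++ s = n at *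
      obtain ⟨s', e2⟩ : u <+: 3 :: s := prefix_of_prefix_length_le
        ⟨x ++ v, by rw [← append_assoc, e1]⟩ ⟨n ++ s ++ [3], by simp⟩ (by simp; omega)
      obtain ⟨t', e3⟩ : v <:+ s ++ [3] := suffix_of_suffix_length_le
        ⟨u ++ x, e1⟩ ⟨3 :: s ++ n, by simp⟩ (by simp; omega)
      have e4 : x = s' ++ n ++ t' := by
        rw [show 3 :: (s ++ n ++ s) ++ [3] = (3 :: s) ++ n ++ (s ++ [3]) by simp, ← e2, ← e3] at e1
        simpa [append_assoc u] using (by simpa [← append_assoc] using e1 : u ++ x = u ++ s' ++ n ++ t')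
      rcases (e _).1 h with g | ⟨g, -, e5⟩
      · obtain ⟨i, hi, h4⟩ := hQ' s' t' (e4 ▸ h2)
        have h5 := Gram.Gen.step ((e _).2 (.inl fun a ha => by
          by_cases l : a ∈ y3 i ++ v3 i
          · interval_cases i <;> simp [y3, v3, U3] at l ⊢ <;> tauto
          · exact g a (by simp_all))) h1 h4 h3
        rw [show u ++ (s' ++ (n ++ (y3 i ++ v3 i) ++ n) ++ t') ++ v =
          (u ++ s') ++ (n ++ (y3 i ++ v3 i) ++ n) ++ (t' ++ v) by simp, e2, e3] at h5
        rcases (e _).1 h5 with g | ⟨g, h6, e5⟩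
        · simpa [U3] using g 3 (by simp)
        · simp only [← append_assoc, cons_append, cons.injEq, true_and, append_cancel_right_eq] at e5
          have := h6.2
          rw [← e5, show s ++ n ++ y3 i ++ v3 i ++ n ++ s = s ++ n ++ (y3 i ++ v3 i) ++ (n ++ s) by
            simp] at this
          replace this := this.left_of_append.right_of_append
          interval_cases i <;> simp [y3, v3] at this
      · have c := congrArg (count 3) e1
        have : (s ++ n ++ s).count 3 = 0 := count_eq_zero.2 fun l => by simpa [U3] using hw.1 3 l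
        simp only [e5, count_append, count_cons, this] at c
        obtain rfl : u = [] := by
          rcases u with _ | ⟨a, u⟩
          · rfl
          · simp only [cons_append, cons.injEq] at e2
            simp [e2.1] at c
            omega
        obtain rfl : v = [] := by
          rcases v.eq_nil_or_concat with rfl | ⟨v, a, rfl⟩
          · rfl
          · simp [← append_assoc] at e3 c
            simp [e3.2] at c
            omega
        exact ih (by simpa using e1)
  exact key _ ((e _).2 (.inr ⟨_, hw, rfl⟩)) rfl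

end Pool.Agent.Results.MP_4db40a_lc.Sep
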